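import Mathlib

/-!
Fejér positivity: a mean square over consecutive integer frequencies is bounded by the number of
close pairs modulo one.
-/

set_option autoImplicit false

open Finset Real

namespace Pool.Agent.MP_71ac24_nt

lemma cell_sum {ι : Type*} (s : Finset ι) {R : ℕ} [NeZero R] (c : ι → ZMod R) (g : ZMod R → ℝ)
    (hg : ∀ i, 0 ≤ g i) :
    ∑ n ∈ s, ∑ m ∈ s, g (c n - c m) ≤ (∑ i, g i) * #{p ∈ s ×ˢ s | c p.1 = c p.2} := by
  classical
  set N : ZMod R → ℝ := fun a => #{n ∈ s | c n = a} with hN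
  have key : ∀ F : ZMod R → ℝ, ∑ n ∈ s, F (c n) = ∑ a, N a * F a := by
    intro F
    rw [← Finset.sum_fiberwise s c]
    refine Finset.sum_congr rfl fun a _ => ?_
    rw [Finset.sum_congr rfl (g := fun _ => F a) (fun n hn => by rw [(Finset.mem_filter.1 hn).2])]
    simp [hN]
  have h1 : (#{p ∈ s ×ˢ s | c p.1 = c p.2} : ℝ) = ∑ a, N a * N a := by
    rw [← key N, Finset.card_filter, Finset.sum_product]
    push_cast
    refine Finset.sum_congr rfl fun n _ => ?_
    simp only [hN, Finset.card_filter]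
    push_cast
    exact Finset.sum_congr rfl fun m _ => by simp [eq_comm]
  have h2 : ∑ n ∈ s, ∑ m ∈ s, g (c n - c m) = ∑ a, ∑ b, N a * N b * g (a - b) := by
    rw [key (fun a => ∑ m ∈ s, g (a - c m))]
    refine Finset.sum_congr rfl fun a _ => ?_
    rw [key (fun b => g (a - b)), Finset.mul_sum]
    exact Finset.sum_congr rfl fun b _ => by ring
  have h3 : ∑ a, ∑ b, N a * N a * g (a - b) = (∑ i, g i) * ∑ a, N a * N a := by
    rw [Finset.mul_sum]
    refine Finset.sum_congr rfl fun a _ => ?_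
    rw [← Finset.mul_sum, mul_comm]
    congr 1
    exact Equiv.sum_comp (Equiv.subLeft a) g
  have h4 : ∑ a, ∑ b, N b * N b * g (a - b) = (∑ i, g i) * ∑ a, N a * N a := by
    rw [Finset.sum_comm, Finset.mul_sum]
    refine Finset.sum_congr rfl fun a _ => ?_
    rw [← Finset.mul_sum, mul_comm]
    congr 1
    exact Equiv.sum_comp (Equiv.subRight a) g
  have h5 : 2 * ∑ a, ∑ b, N a * N b * g (a - b) ≤
      ∑ a, ∑ b, N a * N a * g (a - b) + ∑ a, ∑ b, N b * N b * g (a - b) := by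
    rw [Finset.mul_sum, ← Finset.sum_add_distrib]
    refine Finset.sum_le_sum fun a _ => ?_
    rw [Finset.mul_sum, ← Finset.sum_add_distrib]
    refine Finset.sum_le_sum fun b _ => ?_
    nlinarith [mul_nonneg (sq_nonneg (N a - N b)) (hg (a - b))]
  rw [h1, h2]
  linarith

/-- The cell of length `1 / R` on the circle containing `x`. -/
noncomputable def cell (R : ℕ) (x : ℝ) : ZMod R := ((⌊R * x⌋ : ℤ) : ZMod R)

lemma cell_diff (R : ℕ) [NeZero R] (x y : ℝ) :
    ∃ k : ℤ, |R * (x - y - k) - (cell R x - cell R y).valMinAbs| < 1 := by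
  have h1 : (((cell R x - cell R y).valMinAbs : ℤ) : ZMod R) = ((⌊R * x⌋ - ⌊R * y⌋ : ℤ) : ZMod R) := by
    rw [ZMod.coe_valMinAbs]; simp [cell]
  obtain ⟨k, hk⟩ := (ZMod.intCast_eq_intCast_iff_dvd_sub _ _ _).1 h1
  refine ⟨k, ?_⟩
  have h2 : ((⌊R * x⌋ : ℤ) : ℝ) - ⌊R * y⌋ - (cell R x - cell R y).valMinAbs = R * k := by
    exact_mod_cast hk
  have a1 := Int.floor_le (R * x)
  have a2 := Int.lt_floor_add_one (R * x)
  have a3 := Int.floor_le (R * y)
  have a4 := Int.lt_floor_add_one (R * y)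
  rw [abs_lt]; constructor <;> linarith

lemma near_of_cell_eq {R : ℕ} [NeZero R] {x y : ℝ} (h : cell R x = cell R y) :
    ∃ k : ℤ, |x - y - k| ≤ 1 / R := by
  obtain ⟨k, hk⟩ := cell_diff R x y
  have hR : (0 : ℝ) < R := by exact_mod_cast Nat.pos_of_ne_zero (NeZero.ne R)
  refine ⟨k, ?_⟩
  rw [h, sub_self, ZMod.valMinAbs_zero, Int.cast_zero, sub_zero, abs_mul, abs_of_pos hR] at hk
  rw [le_div_iff₀ hR]; linarith

open Classical in
lemma card_cell_le {ι : Type*} (s : Finset ι) (R : ℕ) [NeZero R] (θ : ι → ℝ) :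
    #{p ∈ s ×ˢ s | cell R (θ p.1) = cell R (θ p.2)} ≤
      #{p ∈ s ×ˢ s | ∃ k : ℤ, |θ p.1 - θ p.2 - k| ≤ 1 / R} :=
  Finset.card_le_card fun p hp => by
    rw [Finset.mem_filter] at hp ⊢
    exact ⟨hp.1, near_of_cell_eq hp.2⟩

open Classical in
/-- Doubling the window costs a constant factor. -/
lemma card_double {ι : Type*} (s : Finset ι) (R : ℕ) (hR : 1 ≤ R) (θ : ι → ℝ) :
    #{p ∈ s ×ˢ s | ∃ k : ℤ, |θ p.1 - θ p.2 - k| ≤ 2 / R} ≤
      5 * #{p ∈ s ×ˢ s | ∃ k : ℤ, |θ p.1 - θ p.2 - k| ≤ 1 / R} := by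
  have : NeZero R := ⟨by omega⟩
  have hR0 : (0 : ℝ) < R := by exact_mod_cast hR
  set A : Finset (ZMod R) := (Finset.Icc (-2 : ℤ) 2).image (fun z : ℤ => (z : ZMod R)) with hA
  have hA5 : #A ≤ 5 := Finset.card_image_le.trans (by simp)
  have h := cell_sum s (fun n => cell R (θ n)) (fun i => if i ∈ A then 1 else 0)
    (fun i => by split_ifs <;> norm_num)
  have h1 : ∑ i : ZMod R, (if i ∈ A then (1 : ℝ) else 0) = #A := by simp
  have h2 : (#{p ∈ s ×ˢ s | ∃ k : ℤ, |θ p.1 - θ p.2 - k| ≤ 2 / R} : ℝ) ≤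
      ∑ n ∈ s, ∑ m ∈ s, if cell R (θ n) - cell R (θ m) ∈ A then (1 : ℝ) else 0 := by
    rw [Finset.card_filter, Finset.sum_product]
    push_cast
    refine Finset.sum_le_sum fun n _ => Finset.sum_le_sum fun m _ => ?_
    by_cases hk : ∃ k : ℤ, |θ n - θ m - k| ≤ 2 / R
    · rw [if_pos hk, if_pos]
      obtain ⟨k, hk⟩ := hk
      rw [hA, Finset.mem_image]
      refine ⟨⌊R * θ n⌋ - ⌊R * θ m⌋ - R * k, ?_, by simp [cell]⟩
      have hk' : |R * (θ n - θ m - k)| ≤ 2 := by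
        rw [abs_mul, abs_of_pos hR0, mul_comm, ← le_div_iff₀ hR0]; exact hk
      have a0 := abs_le.1 hk'
      have a1 := Int.floor_le (R * θ n)
      have a2 := Int.lt_floor_add_one (R * θ n)
      have a3 := Int.floor_le (R * θ m)
      have a4 := Int.lt_floor_add_one (R * θ m)
      have b1 : ((⌊R * θ n⌋ - ⌊R * θ m⌋ - R * k : ℤ) : ℝ) < 3 := by push_cast; linarith [a0.2]
      have b2 : (-3 : ℝ) < ((⌊R * θ n⌋ - ⌊R * θ m⌋ - R * k : ℤ) : ℝ) := by push_cast; linarith [a0.1]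
      have b3 : ⌊R * θ n⌋ - ⌊R * θ m⌋ - R * k < 3 := by exact_mod_cast b1
      have b4 : -3 < ⌊R * θ n⌋ - ⌊R * θ m⌋ - R * k := by exact_mod_cast b2
      rw [Finset.mem_Icc]; omega
    · rw [if_neg hk]; split_ifs <;> norm_num
  have h3 : (#{p ∈ s ×ˢ s | cell R (θ p.1) = cell R (θ p.2)} : ℝ) ≤
      #{p ∈ s ×ˢ s | ∃ k : ℤ, |θ p.1 - θ p.2 - k| ≤ 1 / R} := by
    exact_mod_cast card_cell_le s R θ
  have h4 : (#A : ℝ) ≤ 5 := by exact_mod_cast hA5
  rw [h1] at h
  have h5 := (h2.trans h).trans (mul_le_mul h4 h3 (by positivity) (by norm_num))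
  exact_mod_cast h5

/-- The additive character `e(x)`. -/
noncomputable def ee (x : ℝ) : ℂ := Complex.exp (Complex.I * (2 * π * x : ℝ))

lemma ee_add (x y : ℝ) : ee (x + y) = ee x * ee y := by
  simp only [ee, ← Complex.exp_add]; congr 1; push_cast; ring

lemma norm_ee (x : ℝ) : ‖ee x‖ = 1 := Complex.norm_exp_I_mul_ofReal _

lemma conj_ee (x : ℝ) : (starRingEnd ℂ) (ee x) = ee (-x) := by
  simp only [ee, ← Complex.exp_conj, map_mul, Complex.conj_I, Complex.conj_ofReal]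
  congr 1; push_cast; ring

lemma ee_pow (x : ℝ) (j : ℕ) : ee (j * x) = ee x ^ j := by
  simp only [ee, ← Complex.exp_nat_mul]; congr 1; push_cast; ring

lemma geom_bound (x : ℝ) (n : ℕ) : ‖∑ j ∈ range n, ee (j * x)‖ * |Real.sin (π * x)| ≤ 1 := by
  have h1 : (∑ j ∈ range n, ee (j * x)) * (ee x - 1) = ee x ^ n - 1 := by
    simp only [ee_pow]; exact geom_sum_mul _ _
  have h2 : ‖ee x - 1‖ = 2 * |Real.sin (π * x)| := by
    rw [ee, Complex.norm_exp_I_mul_ofReal_sub_one, show 2 * π * x / 2 = π * x by ring]; simp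
  have h3 : ‖ee x ^ n - 1‖ ≤ 2 := by
    refine (norm_sub_le _ _).trans ?_
    rw [norm_pow, norm_ee]; norm_num
  rw [← h1, norm_mul, h2] at h3
  linarith

lemma sin_lower {x : ℝ} (hx : |x| ≤ 3 / 4) : 2 / 3 * |x| ≤ |Real.sin (π * x)| := by
  have key : ∀ y : ℝ, 0 ≤ y → y ≤ 3 / 4 → 2 / 3 * y ≤ Real.sin (π * y) := by
    intro y h0 h1
    have hπ := Real.pi_pos
    by_cases h : y ≤ 1 / 2
    · have := Real.mul_le_sin (x := π * y) (by positivity) (by nlinarith)
      have e : 2 / π * (π * y) = 2 * y := by field_simp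
      linarith
    · have := Real.mul_le_sin (x := π * (1 - y)) (by nlinarith) (by nlinarith)
      have e : 2 / π * (π * (1 - y)) = 2 * (1 - y) := by field_simp
      rw [e, show π * (1 - y) = π - π * y by ring, Real.sin_pi_sub] at this
      linarith
  rcases le_total 0 x with h | h
  · rw [abs_of_nonneg h] at hx ⊢
    exact (key x h hx).trans (le_abs_self _)
  · rw [abs_of_nonpos h] at hx ⊢
    refine (key (-x) (by linarith) hx).trans ?_
    rw [mul_neg, Real.sin_neg]; exact neg_le_abs _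

lemma kernel_bound {R : ℕ} [NeZero R] (hR : 4 ≤ R) (x y : ℝ) :
    ‖∑ j ∈ range (2 * R), ee (j * (x - y))‖ ^ 2 ≤ (R : ℝ) ^ 2 *
      (27 / ((((cell R x - cell R y).valMinAbs.natAbs : ℝ) + 1) *
        (((cell R x - cell R y).valMinAbs.natAbs : ℝ) + 2))) := by
  obtain ⟨k, hk⟩ := cell_diff R x y
  have hv := ZMod.natAbs_valMinAbs_le (cell R x - cell R y)
  set w := (cell R x - cell R y).valMinAbs with hw
  have hR4 : (4 : ℝ) ≤ R := by exact_mod_cast hR
  have hR0 : (0 : ℝ) < R := by linarith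
  set F := ‖∑ j ∈ range (2 * R), ee (j * (x - y))‖ with hF
  have hF0 : 0 ≤ F := norm_nonneg _
  set v : ℝ := (w.natAbs : ℝ) with hvdef
  have hv0 : 0 ≤ v := by positivity
  rw [← mul_div_assoc, le_div_iff₀ (by positivity)]
  by_cases h : w.natAbs ≤ 1
  · have h1 : F ≤ 2 * R := by
      refine (norm_sum_le _ _).trans ?_
      simp [norm_ee]
    have h2 : v ≤ 1 := by rw [hvdef]; exact_mod_cast h
    have h3 : F ^ 2 ≤ (2 * R) ^ 2 := pow_le_pow_left₀ hF0 h1 2
    have h4 : (v + 1) * (v + 2) ≤ 6 := by nlinarith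
    calc F ^ 2 * ((v + 1) * (v + 2)) ≤ (2 * R) ^ 2 * 6 :=
          mul_le_mul h3 h4 (by positivity) (by positivity)
      _ ≤ _ := by nlinarith
  · have h2 : 2 ≤ v := by rw [hvdef]; exact_mod_cast (by omega : 2 ≤ w.natAbs)
    have hv2 : 2 * v ≤ R := by
      rw [hvdef]; exact_mod_cast (by omega : 2 * w.natAbs ≤ R)
    have hwv : |(w : ℝ)| = v := by rw [hvdef, Nat.cast_natAbs, Int.cast_abs]
    set z := x - y - k with hz
    have a1 : R * |z| ≤ v + 1 := by
      have : |R * z| ≤ |R * z - w| + |(w : ℝ)| := by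
        simpa using abs_add_le (R * z - w) w
      rw [abs_mul, abs_of_pos hR0] at this
      linarith
    have a2 : v - 1 ≤ R * |z| := by
      have : |(w : ℝ)| ≤ |R * z| + |R * z - w| := by
        simpa using abs_sub (R * z) (R * z - w)
      rw [abs_mul, abs_of_pos hR0] at this
      linarith
    have a3 : |z| ≤ 3 / 4 := by
      by_contra h'
      nlinarith
    have a4 := sin_lower a3
    have a5 : |Real.sin (π * z)| = |Real.sin (π * (x - y))| := by
      rw [hz, show π * (x - y - k) = π * (x - y) - k * π by ring, Real.sin_sub_int_mul_pi, abs_mul]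
      simp
    have a6 := geom_bound (x - y) (2 * R)
    rw [← hF, ← a5] at a6
    have a7 : F * (v - 1) ≤ 3 / 2 * R := by
      have b1 : F * (2 / 3 * |z|) ≤ 1 := (mul_le_mul_of_nonneg_left a4 hF0).trans a6
      have b2 : F * (v - 1) ≤ F * (R * |z|) := mul_le_mul_of_nonneg_left a2 hF0
      nlinarith
    have a8 : (F * (v - 1)) ^ 2 ≤ (3 / 2 * R) ^ 2 :=
      pow_le_pow_left₀ (mul_nonneg hF0 (by linarith)) a7 2
    have a9 : (v + 1) * (v + 2) ≤ 12 * (v - 1) ^ 2 := by nlinarith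
    calc F ^ 2 * ((v + 1) * (v + 2)) ≤ F ^ 2 * (12 * (v - 1) ^ 2) :=
          mul_le_mul_of_nonneg_left a9 (by positivity)
      _ = 12 * (F * (v - 1)) ^ 2 := by ring
      _ ≤ _ := by nlinarith

lemma weight_sum (R : ℕ) [NeZero R] :
    ∑ i : ZMod R, 27 / (((i.valMinAbs.natAbs : ℝ) + 1) * ((i.valMinAbs.natAbs : ℝ) + 2)) ≤ 54 := by
  classical
  have h1 : ∀ n : ℕ, ∑ v ∈ range n, (27 : ℝ) / ((v + 1) * (v + 2)) = 27 - 27 / (n + 1) := by
    intro n
    induction n with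
    | zero => simp
    | succ n ih => rw [Finset.sum_range_succ, ih]; push_cast; field_simp; ring
  rw [← Finset.sum_fiberwise_of_maps_to (s := Finset.univ) (t := range (R + 1))
    (g := fun i : ZMod R => i.valMinAbs.natAbs) (fun i _ => by
      have := ZMod.natAbs_valMinAbs_le i
      rw [Finset.mem_range]; omega)]
  have h2 : ∀ v ∈ range (R + 1), ∑ i : ZMod R with i.valMinAbs.natAbs = v,
      27 / (((i.valMinAbs.natAbs : ℝ) + 1) * ((i.valMinAbs.natAbs : ℝ) + 2)) ≤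
      2 * ((27 : ℝ) / ((v + 1) * (v + 2))) := by
    intro v _
    rw [Finset.sum_congr rfl (g := fun _ => (27 : ℝ) / ((v + 1) * (v + 2)))
      (fun i hi => by rw [(Finset.mem_filter.1 hi).2]), Finset.sum_const, nsmul_eq_mul]
    refine mul_le_mul_of_nonneg_right ?_ (by positivity)
    have : #{i : ZMod R | i.valMinAbs.natAbs = v} ≤ #({(v : ℤ), -(v : ℤ)} : Finset ℤ) := by
      refine Finset.card_le_card_of_injOn (fun i => i.valMinAbs) (fun i hi => ?_)
        (fun i _ j _ h => ZMod.injective_valMinAbs h)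
      have := (Finset.mem_filter.1 hi).2
      simp only [Finset.coe_insert, Finset.coe_singleton, Set.mem_insert_iff, Set.mem_singleton_iff]
      omega
    exact_mod_cast this.trans Finset.card_le_two
  refine (Finset.sum_le_sum h2).trans ?_
  rw [← Finset.mul_sum, h1]
  have : (0 : ℝ) ≤ 27 / (((R + 1 : ℕ) : ℝ) + 1) := by positivity
  linarith

lemma shift_le (f : ℝ → ℝ) (hf : ∀ x, 0 ≤ f x) (R : ℕ) :
    R * ∑ j ∈ range R, f j ≤ ∑ i ∈ range (2 * R), ∑ j ∈ range (2 * R), f (j - i) := by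
  have h1 : ∀ i ∈ range R, ∑ j ∈ range R, f j ≤ ∑ j ∈ range (2 * R), f (j - i) := by
    intro i hi
    have hi' := Finset.mem_range.1 hi
    obtain ⟨d, hd⟩ : ∃ d, 2 * R = i + (R + d) := ⟨R - i, by omega⟩
    rw [hd, Finset.sum_range_add, Finset.sum_range_add]
    have e : ∑ j ∈ range R, f (((i + j : ℕ) : ℝ) - i) = ∑ j ∈ range R, f j :=
      Finset.sum_congr rfl fun j _ => by push_cast; congr 1; ring
    rw [e]
    have a : 0 ≤ ∑ j ∈ range i, f ((j : ℝ) - i) := Finset.sum_nonneg fun _ _ => hf _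
    have b : 0 ≤ ∑ j ∈ range d, f (((i + (R + j) : ℕ) : ℝ) - i) := Finset.sum_nonneg fun _ _ => hf _
    linarith
  calc R * ∑ j ∈ range R, f j = ∑ _i ∈ range R, ∑ j ∈ range R, f j := by simp
    _ ≤ ∑ i ∈ range R, ∑ j ∈ range (2 * R), f (j - i) := Finset.sum_le_sum h1
    _ ≤ _ := Finset.sum_le_sum_of_subset_of_nonneg (Finset.range_mono (by omega))
        fun _ _ _ => Finset.sum_nonneg fun _ _ => hf _

lemma double_sum_le {ι : Type*} (s : Finset ι) (θ : ι → ℝ) (b : ι → ℂ) (hb : ∀ n ∈ s, ‖b n‖ ≤ 1)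
    (K : ℕ) : ∑ i ∈ range K, ∑ j ∈ range K, ‖∑ n ∈ s, b n * ee (((j : ℝ) - i) * θ n)‖ ^ 2 ≤
      ∑ n ∈ s, ∑ m ∈ s, ‖∑ j ∈ range K, ee (j * (θ n - θ m))‖ ^ 2 := by
  have h1 : ((∑ i ∈ range K, ∑ j ∈ range K, ‖∑ n ∈ s, b n * ee (((j : ℝ) - i) * θ n)‖ ^ 2 : ℝ) : ℂ) =
      ∑ n ∈ s, ∑ m ∈ s, b n * (starRingEnd ℂ) (b m) *
        ((‖∑ j ∈ range K, ee (j * (θ n - θ m))‖ ^ 2 : ℝ) : ℂ) := by
    push_cast
    simp only [← Complex.mul_conj', map_sum, map_mul, conj_ee, Finset.sum_mul_sum]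
    simp only [Finset.mul_sum]
    calc _ = ∑ i ∈ range K, ∑ n ∈ s, ∑ m ∈ s, ∑ j ∈ range K,
            b n * ee (((j : ℝ) - i) * θ n) * ((starRingEnd ℂ) (b m) * ee (-(((j : ℝ) - i) * θ m))) := by
          refine Finset.sum_congr rfl fun i _ => ?_
          rw [Finset.sum_comm]
          exact Finset.sum_congr rfl fun n _ => Finset.sum_comm
      _ = ∑ n ∈ s, ∑ m ∈ s, ∑ j ∈ range K, ∑ i ∈ range K,
            b n * ee (((j : ℝ) - i) * θ n) * ((starRingEnd ℂ) (b m) * ee (-(((j : ℝ) - i) * θ m))) := by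
          rw [Finset.sum_comm]
          refine Finset.sum_congr rfl fun n _ => ?_
          rw [Finset.sum_comm]
          exact Finset.sum_congr rfl fun m _ => Finset.sum_comm
      _ = _ := by
          refine Finset.sum_congr rfl fun n _ => Finset.sum_congr rfl fun m _ =>
            Finset.sum_congr rfl fun j _ => Finset.sum_congr rfl fun i _ => ?_
          have : ee (((j : ℝ) - i) * θ n) * ee (-(((j : ℝ) - i) * θ m)) =
              ee (j * (θ n - θ m)) * ee (-(i * (θ n - θ m))) := by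
            rw [← ee_add, ← ee_add]; congr 1; ring
          linear_combination b n * (starRingEnd ℂ) (b m) * this
  have h2 := congrArg norm h1
  rw [Complex.norm_real, Real.norm_of_nonneg (by positivity)] at h2
  rw [h2]
  refine (norm_sum_le _ _).trans (Finset.sum_le_sum fun n hn => ?_)
  refine (norm_sum_le _ _).trans (Finset.sum_le_sum fun m hm => ?_)
  rw [norm_mul, norm_mul, Complex.norm_conj, Complex.norm_real, Real.norm_of_nonneg (by positivity)]
  exact mul_le_of_le_one_left (by positivity) (mul_le_one₀ (hb n hn) (norm_nonneg _) (hb m hm))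

open Classical in
lemma fejer {ι : Type*} (s : Finset ι) (θ : ι → ℝ) (b : ι → ℂ) (hb : ∀ n ∈ s, ‖b n‖ ≤ 1) (R : ℕ)
    (hR : 4 ≤ R) : ∑ j ∈ range R, ‖∑ n ∈ s, b n * ee (j * θ n)‖ ^ 2 ≤
      54 * R * #{p ∈ s ×ˢ s | ∃ k : ℤ, |θ p.1 - θ p.2 - k| ≤ 1 / R} := by
  have : NeZero R := ⟨by omega⟩
  have hR0 : (0 : ℝ) < R := by exact_mod_cast (by omega : 0 < R)
  have h1 := shift_le (fun x => ‖∑ n ∈ s, b n * ee (x * θ n)‖ ^ 2) (fun _ => by positivity) R
  have h2 := double_sum_le s θ b hb (2 * R)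
  have h3 := cell_sum s (fun n => cell R (θ n))
    (fun i => 27 / (((i.valMinAbs.natAbs : ℝ) + 1) * ((i.valMinAbs.natAbs : ℝ) + 2)))
    (fun _ => by positivity)
  have h4 : (#{p ∈ s ×ˢ s | cell R (θ p.1) = cell R (θ p.2)} : ℝ) ≤
      #{p ∈ s ×ˢ s | ∃ k : ℤ, |θ p.1 - θ p.2 - k| ≤ 1 / R} := by
    exact_mod_cast card_cell_le s R θ
  have h5 := h3.trans (mul_le_mul (weight_sum R) h4 (by positivity) (by norm_num))
  have h6 : ∑ n ∈ s, ∑ m ∈ s, ‖∑ j ∈ range (2 * R), ee (j * (θ n - θ m))‖ ^ 2 ≤ (R : ℝ) ^ 2 *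
      ∑ n ∈ s, ∑ m ∈ s, 27 / ((((cell R (θ n) - cell R (θ m)).valMinAbs.natAbs : ℝ) + 1) *
        (((cell R (θ n) - cell R (θ m)).valMinAbs.natAbs : ℝ) + 2)) := by
    rw [Finset.mul_sum]
    refine Finset.sum_le_sum fun n _ => ?_
    rw [Finset.mul_sum]
    exact Finset.sum_le_sum fun m _ => kernel_bound hR _ _
  have h7 := ((h1.trans h2).trans h6).trans (mul_le_mul_of_nonneg_left h5 (by positivity))
  refine le_of_mul_le_mul_left (h7.trans_eq ?_) hR0
  ring

end Pool.Agent.MP_71ac24_nt
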